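import Pool.Agent.L7h55.EX.Law
import Pool.Agent.R482.ST.Ae

/-!
# Excursions of the `3x+1` map near powers, near iterates and near other sequences

Let `f_n`, `n = 0, 1, 2, …`, be positive functions on `(a, ∞)`, `a ≥ 0`, such that `f_n(t) / t` is nondecreasing. For almost
every `x > a`, for all but finitely many `n`, the trajectories of ALL integers `m ≥ 1` with `|m - f_n(x)| ≤ L_n` come down to
values `≤ y_n` within `B log m` steps, and stay `≤ z_n m` until then, as soon as the sums of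
`(log (2 + f_n(t)))^4 L_n (1 / z_n + y_n ^ (-0.06)) (1 + log (f_n(t) / f_n(s)))` converge. So the maximum excursion `t(m)` is
at most `z_n m`, or it is the one of some `u ≤ y_n`. For `f_n(t) = t ^ (v_n)`, `v_n ≥ 1`, it suffices that
`∑ v_n ^ 5 L_n (1 / z_n + y_n ^ (-0.06)) < ∞`. For almost every `x > 1`, for all large `n` and all `m` within distance `1` of
`x ^ n`, `t(m) ≤ 2 n ^ 7 m`, which is `m` times a power of `log m`, or `t(m) = t(u)` for some `u ≤ n ^ 120`. The earlier results on this page near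
sequences have `m ^ (1 + v)` and `m ^ δ` here.
-/

set_option autoImplicit false

namespace Pool.Agent.Results.MP_0a5adf_nt.NearPowers

open MeasureTheory Filter

/-- the accelerated `3x+1` map -/
def T (n : ℕ) : ℕ := if n % 2 = 0 then n / 2 else (3 * n + 1) / 2

/-- within `B log n` steps the trajectory of `n` reaches a value `≤ y`, and it stays `≤ V` until then -/
def DescendsBelow (B y V : ℝ) (n : ℕ) : Prop :=
  ∃ m : ℕ, (m : ℝ) ≤ B * Real.log n ∧ ((T^[m] n : ℕ) : ℝ) ≤ y ∧ ∀ j ≤ m, ((T^[j] n : ℕ) : ℝ) ≤ V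

/-- the maximum excursion of `n` is at most `V` -/
def ExcursionLE (n : ℕ) (V : ℝ) : Prop := ∀ k, ((T^[k] n : ℕ) : ℝ) ≤ V

/-- the functions `f n` are positive on `(a, ∞)`, `a ≥ 0`, and `f n x / x` is nondecreasing there -/
def Starshaped (a : ℝ) (f : ℕ → ℝ → ℝ) : Prop :=
  0 ≤ a ∧ ∀ n : ℕ, ∀ x y : ℝ, a < x → x ≤ y → 0 < f n x ∧ f n x / x ≤ f n y / y

lemma Starshaped.mono {a : ℝ} {f : ℕ → ℝ → ℝ} (hf : Starshaped a f) (n : ℕ) {x y : ℝ} (hx : a < x) (hxy : x ≤ y) :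
    f n x ≤ f n y := by
  obtain ⟨ha, h⟩ := hf
  obtain ⟨h1, h2⟩ := h n x y hx hxy
  have hx0 : 0 < x := by linarith
  have hy0 : 0 < y := by linarith
  have hy1 := (h n y y (by linarith) le_rfl).1
  rw [div_le_div_iff₀ hx0 hy0] at h2
  nlinarith

lemma log_two_le {F G : ℝ} (hF : 0 < F) (hFG : F ≤ G) : Real.log (2 + 2 * F) ≤ 2 * Real.log (2 + G) := by
  have h1 : 2 + 2 * F ≤ (2 + G) ^ 2 := by nlinarith
  calc Real.log (2 + 2 * F) ≤ Real.log ((2 + G) ^ 2) := Real.log_le_log (by linarith) h1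
    _ = 2 * Real.log (2 + G) := by rw [Real.log_pow]; norm_num

theorem general {B C : ℝ} (hC : 0 < C) (law : ∀ M : ℝ, 2 ≤ M → ∀ y z : ℝ, 1 ≤ y → 2 ≤ z → ∀ X : ℝ, 1 ≤ X →
    {m : ℕ | (1 ≤ m ∧ (m : ℝ) ≤ M ∧ ¬ DescendsBelow B y (z * m) m) ∧ (m : ℝ) ≤ X}.Finite ∧
    ({m : ℕ | (1 ≤ m ∧ (m : ℝ) ≤ M ∧ ¬ DescendsBelow B y (z * m) m) ∧ (m : ℝ) ≤ X}.ncard : ℝ) ≤
      C * Real.log M ^ 4 * (1 / z + y ^ (-(6 / 100) : ℝ)) * X)
    {a : ℝ} {f : ℕ → ℝ → ℝ} (hf : Starshaped a f) (hb : ∀ s : ℝ, a < s → ∃ b : ℝ, 0 < b ∧ ∀ n, b ≤ f n s)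
    {y z L : ℕ → ℝ} (hy : ∀ n, 1 ≤ y n) (hz : ∀ n, 2 ≤ z n) (hL : ∀ n, 0 ≤ L n)
    (hLf : ∀ s : ℝ, a < s → ∀ᶠ n in atTop, L n ≤ f n s)
    (hsum : ∀ s t : ℝ, a < s → s ≤ t → Summable fun n => Real.log (2 + f n t) ^ 4 * L n *
      (1 / z n + (y n) ^ (-(6 / 100) : ℝ)) * (1 + Real.log (f n t / f n s))) :
    ∃ N : Set ℝ, volume N = 0 ∧ ∀ x : ℝ, a < x → x ∉ N → ∃ n₀ : ℕ, ∀ n : ℕ, n₀ ≤ n →
      ∀ m : ℕ, 1 ≤ m → |(m : ℝ) - f n x| ≤ L n → DescendsBelow B (y n) (z n * m) m := by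
  have hpos : ∀ n : ℕ, ∀ x : ℝ, a < x → 0 < f n x := fun n x hx => (hf.2 n x x hx le_rfl).1
  have hall : ∀ K : ℕ, ∃ N : Set ℝ, volume N = 0 ∧ ∀ x : ℝ, a < x → x ∉ N →
      ∃ n₀ : ℕ, ∀ n : ℕ, n₀ ≤ n →
        ∀ m ∈ {m : ℕ | 1 ≤ m ∧ (m : ℝ) ≤ 2 + 2 * f n (a + 1 + K) ∧ ¬ DescendsBelow B (y n) (z n * m) m},
          L n < |(m : ℝ) - f n x| := by
    intro K
    have haK : a < a + 1 + K := by
      have : (0 : ℝ) ≤ K := Nat.cast_nonneg K
      linarith
    have hzy : ∀ n, 0 ≤ 1 / z n + (y n) ^ (-(6 / 100) : ℝ) := fun n => by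
      have := hy n
      have := hz n
      positivity
    refine Pool.Agent.R482.ST.ae_windows
      (fun n => {m : ℕ | 1 ≤ m ∧ (m : ℝ) ≤ 2 + 2 * f n (a + 1 + K) ∧ ¬ DescendsBelow B (y n) (z n * m) m})
      (fun m : ℕ => (m : ℝ)) hf hb
      (C := fun n => C * Real.log (2 + 2 * f n (a + 1 + K)) ^ 4 * (1 / z n + (y n) ^ (-(6 / 100) : ℝ)))
      (fun n => ?_) hL hLf (fun s t hs hst => ?_) (fun n X hX => ?_)
    · have := hpos n _ haK
      have h2 : 0 ≤ Real.log (2 + 2 * f n (a + 1 + K)) := Real.log_nonneg (by linarith)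
      have := hzy n
      positivity
    · obtain ⟨r, hr⟩ : ∃ r : ℝ, r = max t (a + 1 + K) := ⟨_, rfl⟩
      have hrt : t ≤ r := by rw [hr]; exact le_max_left _ _
      have hrK : a + 1 + K ≤ r := by rw [hr]; exact le_max_right _ _
      refine Summable.of_nonneg_of_le (fun n => ?_) (fun n => ?_) ((hsum s r hs (hst.trans hrt)).mul_left (16 * C))
      · have h1 := hpos n _ haK
        have h2 : 0 ≤ Real.log (2 + 2 * f n (a + 1 + K)) := Real.log_nonneg (by linarith)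
        have h3 := hzy n
        have h4 : 0 ≤ Real.log (f n t / f n s) := by
          apply Real.log_nonneg
          rw [one_le_div (hpos n s hs)]
          exact hf.mono n hs hst
        have h5 := hL n
        positivity
      · have h1 := hpos n _ haK
        have h2 : 0 ≤ Real.log (2 + 2 * f n (a + 1 + K)) := Real.log_nonneg (by linarith)
        have h3 := hzy n
        have hs0 := hpos n s hs
        have ht0 := hpos n t (by linarith)
        have h4 : Real.log (f n t / f n s) ≤ Real.log (f n r / f n s) := by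
          apply Real.log_le_log (div_pos ht0 hs0)
          exact div_le_div_of_nonneg_right (hf.mono n (by linarith) hrt) hs0.le
        have h4' : 0 ≤ Real.log (f n t / f n s) := by
          apply Real.log_nonneg
          rw [one_le_div (hpos n s hs)]
          exact hf.mono n hs hst
        have h5 := hL n
        have h6 : Real.log (2 + 2 * f n (a + 1 + K)) ≤ 2 * Real.log (2 + f n r) :=
          log_two_le h1 (hf.mono n haK hrK)
        have h7 : Real.log (2 + 2 * f n (a + 1 + K)) ^ 4 ≤ 16 * Real.log (2 + f n r) ^ 4 := by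
          calc Real.log (2 + 2 * f n (a + 1 + K)) ^ 4 ≤ (2 * Real.log (2 + f n r)) ^ 4 :=
                pow_le_pow_left₀ h2 h6 4
            _ = _ := by ring
        have h8 : 0 ≤ Real.log (2 + f n r) := by
          have := hpos n r (by linarith)
          exact Real.log_nonneg (by linarith)
        calc C * Real.log (2 + 2 * f n (a + 1 + K)) ^ 4 * (1 / z n + (y n) ^ (-(6 / 100) : ℝ)) * L n *
              (1 + Real.log (f n t / f n s))
            ≤ C * (16 * Real.log (2 + f n r) ^ 4) * (1 / z n + (y n) ^ (-(6 / 100) : ℝ)) * L n *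
              (1 + Real.log (f n r / f n s)) := by
              apply mul_le_mul _ (by linarith) (by linarith) (by positivity)
              apply mul_le_mul_of_nonneg_right _ h5
              apply mul_le_mul_of_nonneg_right _ h3
              exact mul_le_mul_of_nonneg_left h7 hC.le
          _ = _ := by ring
    · have h1 := hpos n _ haK
      exact law (2 + 2 * f n (a + 1 + K)) (by linarith) (y n) (z n) (hy n) (hz n) X hX
  choose N hN hN2 using hall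
  refine ⟨⋃ K, N K, measure_iUnion_null hN, fun x hx hxN => ?_⟩
  obtain ⟨K, hK⟩ := exists_nat_ge (x - a - 1)
  obtain ⟨n₀, hn₀⟩ := hN2 K x hx (fun h => hxN (Set.mem_iUnion.2 ⟨K, h⟩))
  obtain ⟨n₁, hn₁⟩ := eventually_atTop.1 (hLf x hx)
  refine ⟨max n₀ n₁, fun n hn m hm hw => ?_⟩
  by_contra hcon
  have h1 := hn₁ n ((le_max_right _ _).trans hn)
  have h2 : (m : ℝ) ≤ 2 + 2 * f n (a + 1 + K) := by
    have h3 := (abs_le.1 hw).2
    have h4 : f n x ≤ f n (a + 1 + K) := hf.mono n hx (by linarith)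
    linarith
  exact absurd (hn₀ n ((le_max_left _ _).trans hn) m ⟨hm, h2, hcon⟩) (not_lt.2 hw)

lemma star_pow {v : ℕ → ℝ} (hv : ∀ n, 1 ≤ v n) : Starshaped 1 (fun n x => x ^ (v n)) := by
  refine ⟨zero_le_one, fun n x y hx hxy => ?_⟩
  have hx0 : 0 < x := by linarith
  have hy0 : 0 < y := by linarith
  refine ⟨Real.rpow_pos_of_pos hx0 _, ?_⟩
  show x ^ (v n) / x ≤ y ^ (v n) / y
  rw [← Real.rpow_sub_one hx0.ne', ← Real.rpow_sub_one hy0.ne']
  exact Real.rpow_le_rpow hx0.le hxy (by linarith [hv n])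

theorem powers {B C : ℝ} (hC : 0 < C) (law : ∀ M : ℝ, 2 ≤ M → ∀ y z : ℝ, 1 ≤ y → 2 ≤ z → ∀ X : ℝ, 1 ≤ X →
    {m : ℕ | (1 ≤ m ∧ (m : ℝ) ≤ M ∧ ¬ DescendsBelow B y (z * m) m) ∧ (m : ℝ) ≤ X}.Finite ∧
    ({m : ℕ | (1 ≤ m ∧ (m : ℝ) ≤ M ∧ ¬ DescendsBelow B y (z * m) m) ∧ (m : ℝ) ≤ X}.ncard : ℝ) ≤
      C * Real.log M ^ 4 * (1 / z + y ^ (-(6 / 100) : ℝ)) * X)
    {v y z L : ℕ → ℝ} (hv : ∀ n, 1 ≤ v n) (hy : ∀ n, 1 ≤ y n) (hz : ∀ n, 2 ≤ z n) (hL : ∀ n, 0 ≤ L n)
    (hLf : ∀ s : ℝ, 1 < s → ∀ᶠ n in atTop, L n ≤ s ^ (v n))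
    (hsum : Summable fun n => v n ^ 5 * L n * (1 / z n + (y n) ^ (-(6 / 100) : ℝ))) :
    ∃ N : Set ℝ, volume N = 0 ∧ ∀ x : ℝ, 1 < x → x ∉ N → ∃ n₀ : ℕ, ∀ n : ℕ, n₀ ≤ n →
      ∀ m : ℕ, 1 ≤ m → |(m : ℝ) - x ^ (v n)| ≤ L n → DescendsBelow B (y n) (z n * m) m := by
  refine general hC law (f := fun n x => x ^ (v n)) (star_pow hv) (fun s hs => ⟨1, one_pos, fun n => ?_⟩) hy hz hL hLf
    (fun s t hs hst => ?_)
  · exact Real.one_le_rpow hs.le (by linarith [hv n])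
  · have hs0 : 0 < s := by linarith
    have ht0 : 0 < t := by linarith
    have ht1 : 1 < t := by linarith
    have hlt : 0 ≤ Real.log t := Real.log_nonneg ht1.le
    have hl3 : 0 ≤ Real.log 3 := Real.log_nonneg (by norm_num)
    have hst1 : 0 ≤ Real.log (t / s) := Real.log_nonneg (by rw [one_le_div hs0]; exact hst)
    refine Summable.of_nonneg_of_le (fun n => ?_) (fun n => ?_)
      (hsum.mul_left ((Real.log 3 + Real.log t) ^ 4 * (1 + Real.log (t / s))))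
    · have h1 : 1 ≤ t ^ (v n) := Real.one_le_rpow ht1.le (by linarith [hv n])
      have h2 : 0 ≤ Real.log (2 + t ^ (v n)) := Real.log_nonneg (by linarith)
      have h3 := hL n
      have h4 := hy n
      have h5 := hz n
      have h6 : 0 ≤ Real.log (t ^ (v n) / s ^ (v n)) := by
        rw [← Real.div_rpow ht0.le hs0.le, Real.log_rpow (div_pos ht0 hs0)]
        have := hv n
        positivity
      positivity
    · have hvn := hv n
      have h1 : 1 ≤ t ^ (v n) := Real.one_le_rpow ht1.le (by linarith)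
      have h2 : 0 ≤ Real.log (2 + t ^ (v n)) := Real.log_nonneg (by linarith)
      have h2' : Real.log (2 + t ^ (v n)) ≤ (Real.log 3 + Real.log t) * v n := by
        calc Real.log (2 + t ^ (v n)) ≤ Real.log (3 * t ^ (v n)) := Real.log_le_log (by linarith) (by linarith)
          _ = Real.log 3 + v n * Real.log t := by
              rw [Real.log_mul (by norm_num) (by positivity), Real.log_rpow ht0]
          _ ≤ _ := by nlinarith
      have h3 := hL n
      have h4 := hy n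
      have h5 := hz n
      have h6 : Real.log (t ^ (v n) / s ^ (v n)) = v n * Real.log (t / s) := by
        rw [← Real.div_rpow ht0.le hs0.le, Real.log_rpow (div_pos ht0 hs0)]
      have h7 : Real.log (2 + t ^ (v n)) ^ 4 ≤ (Real.log 3 + Real.log t) ^ 4 * v n ^ 4 := by
        calc Real.log (2 + t ^ (v n)) ^ 4 ≤ ((Real.log 3 + Real.log t) * v n) ^ 4 := pow_le_pow_left₀ h2 h2' 4
          _ = _ := by ring
      have h8 : 0 ≤ 1 / z n + (y n) ^ (-(6 / 100) : ℝ) := by positivity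
      rw [h6]
      calc Real.log (2 + t ^ (v n)) ^ 4 * L n * (1 / z n + (y n) ^ (-(6 / 100) : ℝ)) * (1 + v n * Real.log (t / s))
          ≤ ((Real.log 3 + Real.log t) ^ 4 * v n ^ 4) * L n * (1 / z n + (y n) ^ (-(6 / 100) : ℝ)) *
            (v n * (1 + Real.log (t / s))) := by
            apply mul_le_mul _ (by nlinarith) (by positivity) (by positivity)
            apply mul_le_mul_of_nonneg_right _ h8
            exact mul_le_mul_of_nonneg_right h7 h3
        _ = _ := by ring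

lemma example_sum : Summable fun n : ℕ => ((n : ℝ) + 1) ^ 5 * 1 *
    (1 / (2 * ((n : ℝ) + 1) ^ 7) + (((n : ℝ) + 1) ^ 120) ^ (-(6 / 100) : ℝ)) := by
  have h : Summable fun n : ℕ => 2 * (1 / ((n : ℝ) + 1) ^ 2) := by
    apply Summable.mul_left
    have := (summable_nat_add_iff 1).2 (Real.summable_one_div_nat_pow.2 (by norm_num : 1 < 2))
    refine this.congr fun n => ?_
    push_cast
    rfl
  refine Summable.of_nonneg_of_le (fun n => by positivity) (fun n => ?_) h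
  have hn : (0 : ℝ) < (n : ℝ) + 1 := by positivity
  have hn1 : (1 : ℝ) ≤ (n : ℝ) + 1 := by
    have : (0 : ℝ) ≤ n := Nat.cast_nonneg n
    linarith
  have e1 : (((n : ℝ) + 1) ^ 120) ^ (-(6 / 100) : ℝ) ≤ 1 / ((n : ℝ) + 1) ^ 7 := by
    rw [← Real.rpow_natCast ((n : ℝ) + 1) 120, ← Real.rpow_mul hn.le, one_div, ← Real.rpow_natCast ((n : ℝ) + 1) 7,
      ← Real.rpow_neg hn.le]
    apply Real.rpow_le_rpow_of_exponent_le hn1
    norm_num
  have e2 : 1 / (2 * ((n : ℝ) + 1) ^ 7) ≤ 1 / ((n : ℝ) + 1) ^ 7 := by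
    apply div_le_div_of_nonneg_left zero_le_one (by positivity)
    have : (0 : ℝ) < ((n : ℝ) + 1) ^ 7 := by positivity
    linarith
  calc ((n : ℝ) + 1) ^ 5 * 1 * (1 / (2 * ((n : ℝ) + 1) ^ 7) + (((n : ℝ) + 1) ^ 120) ^ (-(6 / 100) : ℝ))
      ≤ ((n : ℝ) + 1) ^ 5 * 1 * (1 / ((n : ℝ) + 1) ^ 7 + 1 / ((n : ℝ) + 1) ^ 7) :=
        mul_le_mul_of_nonneg_left (by linarith) (by positivity)
    _ = 2 * (1 / ((n : ℝ) + 1) ^ 2) := by
        field_simp
        ring

/-- **Theorem.** There is `B` with the following properties. Let `y_n ≥ 1`, `z_n ≥ 2` and `L_n ≥ 0`.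
(1) Let `f_n` be starshaped functions on `(a, ∞)`, bounded below by a positive constant at each point, such that for all
`t ≥ s > a` the sum of `(log (2 + f_n(t)))^4 L_n (1 / z_n + y_n ^ (-0.06)) (1 + log (f_n(t) / f_n(s)))` converges and
`L_n ≤ f_n(s)` for all large `n`. Then for almost every `x > a` and all but finitely many `n`, EVERY integer `m ≥ 1` with
`|m - f_n(x)| ≤ L_n` reaches a value `≤ y_n` within `B log m` steps and stays `≤ z_n m` until then.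
(2) If `v_n ≥ 1`, the sum of `v_n ^ 5 L_n (1 / z_n + y_n ^ (-0.06))` converges and for each `s > 1` one has `L_n ≤ s ^ (v_n)` for
all large `n`, then the same is true for `f_n(x) = x ^ (v_n)` and almost every `x > 1`.
(3) For almost every `x > 1`, for all large `n`, EVERY integer `m ≥ 1` with `|m - x ^ n| ≤ 1` reaches a value `≤ n ^ 120` within
`B log m` steps and stays `≤ 2 n ^ 7 m` until then.
(4) If `m` reaches a value `≤ y` and stays `≤ V` until then, then for some `u ≤ y` in its trajectory and all `V' ≥ V` the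
maximum excursion of `m` is `≤ V'` if and only if the one of `u` is. -/
theorem result : (∃ B : ℝ, 0 < B ∧
    (∀ (a : ℝ) (f : ℕ → ℝ → ℝ), Starshaped a f → (∀ s : ℝ, a < s → ∃ b : ℝ, 0 < b ∧ ∀ n, b ≤ f n s) →
      ∀ y z L : ℕ → ℝ, (∀ n, 1 ≤ y n) → (∀ n, 2 ≤ z n) → (∀ n, 0 ≤ L n) →
      (∀ s : ℝ, a < s → ∀ᶠ n in atTop, L n ≤ f n s) →
      (∀ s t : ℝ, a < s → s ≤ t → Summable fun n => Real.log (2 + f n t) ^ 4 * L n *
        (1 / z n + (y n) ^ (-(6 / 100) : ℝ)) * (1 + Real.log (f n t / f n s))) →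
      ∃ N : Set ℝ, volume N = 0 ∧ ∀ x : ℝ, a < x → x ∉ N → ∃ n₀ : ℕ, ∀ n : ℕ, n₀ ≤ n →
        ∀ m : ℕ, 1 ≤ m → |(m : ℝ) - f n x| ≤ L n → DescendsBelow B (y n) (z n * m) m) ∧
    (∀ v y z L : ℕ → ℝ, (∀ n, 1 ≤ v n) → (∀ n, 1 ≤ y n) → (∀ n, 2 ≤ z n) → (∀ n, 0 ≤ L n) →
      (∀ s : ℝ, 1 < s → ∀ᶠ n in atTop, L n ≤ s ^ (v n)) →
      (Summable fun n => v n ^ 5 * L n * (1 / z n + (y n) ^ (-(6 / 100) : ℝ))) →
      ∃ N : Set ℝ, volume N = 0 ∧ ∀ x : ℝ, 1 < x → x ∉ N → ∃ n₀ : ℕ, ∀ n : ℕ, n₀ ≤ n →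
        ∀ m : ℕ, 1 ≤ m → |(m : ℝ) - x ^ (v n)| ≤ L n → DescendsBelow B (y n) (z n * m) m) ∧
    (∃ N : Set ℝ, volume N = 0 ∧ ∀ x : ℝ, 1 < x → x ∉ N → ∃ n₀ : ℕ, ∀ n : ℕ, n₀ ≤ n →
        ∀ m : ℕ, 1 ≤ m → |(m : ℝ) - x ^ n| ≤ 1 → DescendsBelow B ((n : ℝ) ^ 120) (2 * (n : ℝ) ^ 7 * m) m)) ∧
    (∀ (B y V : ℝ) (m : ℕ), DescendsBelow B y V m → ∃ u k : ℕ, T^[k] m = u ∧ (u : ℝ) ≤ y ∧
      ∀ V' : ℝ, V ≤ V' → (ExcursionLE m V' ↔ ExcursionLE u V')) := by
  obtain ⟨B, C, hB, hC, law⟩ := Pool.Agent.L7h55.EX.law_prop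
  refine ⟨⟨B, hB, fun a f hf hb y z L hy hz hL hLf hsum => general hC law hf hb hy hz hL hLf hsum,
    fun v y z L hv hy hz hL hLf hsum => powers hC law hv hy hz hL hLf hsum, ?_⟩,
    fun B y V m h => Pool.Agent.L7h55.EX.exc_transfer h⟩
  have h1 : ∀ n : ℕ, (1 : ℝ) ≤ (n : ℝ) + 1 := fun n => by
    have : (0 : ℝ) ≤ n := Nat.cast_nonneg n
    linarith
  obtain ⟨N, hN, hN2⟩ := powers hC law (v := fun n => (n : ℝ) + 1) (y := fun n => ((n : ℝ) + 1) ^ 120)
    (z := fun n => 2 * ((n : ℝ) + 1) ^ 7) (L := fun _ => 1) h1 (fun n => one_le_pow₀ (h1 n))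
    (fun n => by
      have := one_le_pow₀ (h1 n) (n := 7)
      linarith) (fun _ => zero_le_one) (fun s hs => Eventually.of_forall fun n => by
      exact Real.one_le_rpow hs.le (by linarith [h1 n])) example_sum
  refine ⟨N, hN, fun x hx hxN => ?_⟩
  obtain ⟨n₀, hn₀⟩ := hN2 x hx hxN
  refine ⟨n₀ + 1, fun n hn m hm hw => ?_⟩
  obtain ⟨k, rfl⟩ : ∃ k, n = k + 1 := ⟨n - 1, by omega⟩
  have h2 := hn₀ k (by omega) m hm (by
    rw [show (k : ℝ) + 1 = ((k + 1 : ℕ) : ℝ) by push_cast; rfl, Real.rpow_natCast]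
    exact hw)
  push_cast
  exact h2

end Pool.Agent.Results.MP_0a5adf_nt.NearPowers
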