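import Pool.Agent.L7h55.EX.AA

/-!
# Excursions of the `3x+1` map near the members of random and metric sequences and near the denominators of convergents

Let `Y` and `Z` be functions which grow faster than all powers of the logarithm, for example `exp ((log log m)^2)`. The integer
`k` is good for `W` if ALL integers `m ≥ 1` with `|m - |k|| ≤ (log |k|)^W` reach a value `≤ Y m` within `B log m` steps and stay
`≤ Z m * m` until then. So the maximum excursion `t(m)` is at most `Z m * m`, or it is the one of some `u ≤ Y m`. Outside of ONE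
event (set) of probability (measure) zero, for all `W` at once:

* for random integers `X_n`, of ANY dependence, with `P (X_n = k) ≤ C / (|k| + 1)`, all but finitely many `X_n` are good, if
  `|X_n| ≥ exp (n ^ δ)` outside of events with a convergent sum of probabilities; all but `N / (log N) ^ U` of the `X_n`, `n < N`,
  are good for all `U`, if `∑_{n < N} P (|X_n| < N ^ δ) ≤ C N ^ (1 - δ)`;
* for all linear forms `a_n` in `d` variables with norms at least `exp (n ^ δ)`, for almost all vectors `α`, all but finitely
  many `⌊a_n (α)⌋` are good; the same for `⌊h_n (x)⌋`, for almost all `x` in an interval on which `|h_n'| ≥ c |h_n|` and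
  `|h_n| ≥ exp (n ^ δ)`; the same for `⌊ξ x ^ n⌋`, for all `ξ ≠ 0` and almost all `x > 1`;
* for ANY sequence of real numbers `a_n` with mutual distances at least `δ > 0`, in any order, and almost all real `α` all but
  `N / (log N) ^ U` of the `⌊a_n α⌋`, `n < N`, are good, for all `U`;
* for almost all real `ξ` all but finitely many of the denominators of the convergents of the continued fraction of `ξ` are good.

Proof. By the law of the excursions with two thresholds (helper930, with the constant of helper905) there are at most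
`O (x (log x)^4 (1 / z + y ^ (-0.06)))` integers `m ≤ x` which leave `[1, z m]` before they come down to `y`; this is smaller
than `x / (log x)^U` for all `U` for `y = Y m` and `z = Z m`. The random and metric sequences are in the library of helper918, the
convergents in the one of helper220.
-/

set_option autoImplicit false

namespace Pool.Agent.Results.MP_0a5adf_nt.RandomAndMetric

open Filter MeasureTheory
open Pool.Agent.N918.MS (RandomAndMetric randomAndMetric AlmostAlways)

/-- the accelerated `3x+1` map -/
def T (n : ℕ) : ℕ := if n % 2 = 0 then n / 2 else (3 * n + 1) / 2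

/-- within `B log n` steps the trajectory of `n` reaches a value `≤ y`, and it stays `≤ V` until then -/
def DescendsBelow (B y V : ℝ) (n : ℕ) : Prop :=
  ∃ m : ℕ, (m : ℝ) ≤ B * Real.log n ∧ ((T^[m] n : ℕ) : ℝ) ≤ y ∧ ∀ j ≤ m, ((T^[j] n : ℕ) : ℝ) ≤ V

/-- the maximum excursion of `n` is at most `V` -/
def ExcursionLE (n : ℕ) (V : ℝ) : Prop := ∀ k, ((T^[k] n : ℕ) : ℝ) ≤ V

/-- `Y` grows faster than all powers of the logarithm -/
def SuperLog (Y : ℕ → ℝ) : Prop := ∀ U : ℕ, ∀ᶠ m : ℕ in atTop, Real.log m ^ U ≤ Y m

/-- ALL integers `m ≥ 1` with `|m - |k|| ≤ (log |k|) ^ W` reach a value `≤ Y m` within `B log m` steps and stay `≤ Z m * m`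
until then -/
def GoodNear (B : ℝ) (Y Z : ℕ → ℝ) (W : ℕ) (k : ℤ) : Prop :=
  ∀ m : ℕ, 1 ≤ m → |(m : ℝ) - k.natAbs| ≤ Real.log k.natAbs ^ W → DescendsBelow B (Y m) (Z m * m) m

/-- **Theorem.** There is `B` such that for all `Y`, `Z` growing faster than all powers of the logarithm the family of the
properties `GoodNear` (the integers `k` such that ALL integers `m ≥ 1` within `(log |k|) ^ W` of `|k|` reach a value `≤ Y m` within
`B log m` steps and stay `≤ Z m * m` until then) has all the properties of the structure `RandomAndMetric`; and for almost all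
real `ξ`, for all `W`, all but finitely many of the denominators of the convergents of `ξ` have it. If `m` reaches a value
`≤ y` and stays `≤ V` until then, then for some `u ≤ y` in its trajectory and all `V' ≥ V` the maximum excursion of `m` is
`≤ V'` if and only if the one of `u` is. -/
theorem result :
    (∃ B : ℝ, 0 < B ∧ ∀ Y Z : ℕ → ℝ, SuperLog Y → SuperLog Z →
      RandomAndMetric (fun (W : ℕ) (k : ℤ) => GoodNear B Y Z W k) ∧
      ∀ᵐ ξ : ℝ, ∀ W : ℕ, ∀ᶠ n : ℕ in atTop, GoodNear B Y Z W ((ξ.convergent n).den : ℤ)) ∧
    (∀ (B y V : ℝ) (m : ℕ), DescendsBelow B y V m → ∃ u k : ℕ, T^[k] m = u ∧ (u : ℝ) ≤ y ∧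
      ∀ V' : ℝ, V ≤ V' → (ExcursionLE m V' ↔ ExcursionLE u V')) := by
  classical
  obtain ⟨B, C, hB, hC, law⟩ := Pool.Agent.L7h55.EX.law_prop
  refine ⟨⟨B, hB, fun Y Z hY hZ => ?_⟩, fun B y V m h => Pool.Agent.L7h55.EX.exc_transfer h⟩
  have hAA : ∀ W : ℕ, AlmostAlways (GoodNear B Y Z W) := fun W =>
    Pool.Agent.L7h55.EX.aa_of_nat (P := GoodNear B Y Z W)
      (Q := fun k : ℕ => ∀ m : ℕ, 1 ≤ m → |(m : ℝ) - k| ≤ Real.log k ^ W →
        Pool.Agent.L7h55.EX.DescendsBelow B (Y m) (Z m * m) m)
      (fun k hk m hm hw => hk m hm hw)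
      (fun U => by
        obtain ⟨X₀, h⟩ := Pool.Agent.L7h55.EX.near_count hC law hY hZ W U
        refine ⟨X₀, fun X hX => ?_⟩
        convert h X hX using 3)
  refine ⟨randomAndMetric _ hAA, ?_⟩
  have h := (Pool.Agent.N220.CF.finitely_family (fun (W : ℕ) (k : ℤ) => GoodNear B Y Z W k) (U := 2) le_rfl
    (fun W => by
      obtain ⟨X₀, h⟩ := hAA W 2
      refine ⟨X₀, fun X hX => le_trans (le_of_eq ?_) (h X hX)⟩
      rw [← Set.ncard_coe_finset]
      congr 2
      ext k
      simp only [Finset.coe_filter, Finset.mem_Icc, Set.mem_ofPred_eq, Set.mem_Icc])).2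
  filter_upwards [h] with ξ hξ W
  filter_upwards [hξ W] with n hn
  exact hn.1

end Pool.Agent.Results.MP_0a5adf_nt.RandomAndMetric
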