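import Pool.Agent.L7h55.EX.Two
import Pool.Agent.N671.DA.Win

/-!
# Excursions of the `3x+1` map near functions of the denominators of good approximations

Let `α_1, …, α_m` be real numbers. We consider the natural numbers `q` with `‖q α_j - β_j‖ ≤ c q^(-τ)` for all `j`, `‖x‖` the
distance to the nearest integer; for `β = 0`, `c = 1`, `τ = 1 / m` these include the denominators of all best simultaneous
approximations (the denominators of the convergents for `m = 1`). They form a very sparse sequence, with gaps growing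
exponentially for almost all `α` if `τ = 1 / m`. Let `0 < v ≤ 1`, `0 < δ`, `0 ≤ κ ≤ 1` and let `G` be a function with steps
bounded below by a positive constant and growth at most `x ^ d`, for example `a x^d`. For all `α` in `ℝ^m` outside a set of
Hausdorff dimension at most `(m + d (1 - min v (0.06 δ)) + κ) / (1 + τ)`, and all `c`, for all but finitely many such `q`
EVERY integer `n ≥ 1` with `|n - G q| ≤ q ^ κ` reaches a value `≤ n ^ δ` within `B log n` steps and stays `≤ n ^ (1 + v)`
until then. So the maximum excursion `t(n)` of `n` is at most `n ^ (1 + v)`, or it is the one of some `u ≤ n ^ δ`. For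
`τ = 1 / m` the bound is less than `m` if `d (1 - min v (0.06 δ)) + κ < 1`; and so the statement holds for almost all `α`.

Proof. The `q` such that some exceptional integer is near `G q` form a set with `O(X^(d (1 - min v (0.06 δ)) + κ + ε))` elements
up to `X`, by the law of the excursions with the explicit constant of helper905 (`Pool.Agent.N905.EX.Law`); and the `α` with
`‖q α_j - β_j‖ ≤ c q^(-τ)` for all `j` and infinitely many `q` of such a set are covered by few small cubes (helper671).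
-/

set_option autoImplicit false

namespace Pool.Agent.Results.MP_0a5adf_nt.SimultaneousApproximations

open Pool.Agent.N671.DA (Solves Expanding expanding_pow approx_good_nat)

/-- the accelerated `3x+1` map -/
def T (n : ℕ) : ℕ := if n % 2 = 0 then n / 2 else (3 * n + 1) / 2

/-- within `B log n` steps the trajectory of `n` reaches a value `≤ y`, and it stays `≤ V` until then -/
def DescendsBelow (B y V : ℝ) (n : ℕ) : Prop :=
  ∃ m : ℕ, (m : ℝ) ≤ B * Real.log n ∧ ((T^[m] n : ℕ) : ℝ) ≤ y ∧ ∀ j ≤ m, ((T^[j] n : ℕ) : ℝ) ≤ V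

/-- the maximum excursion of `n` is at most `V` -/
def ExcursionLE (n : ℕ) (V : ℝ) : Prop := ∀ k, ((T^[k] n : ℕ) : ℝ) ≤ V

/-- **Excursions near the denominators of good approximations.** There is `B` such that for all `G` with steps `≥ a > 0` and
growth at most `x ^ d`, `0 < v ≤ 1`, `δ > 0`, `0 ≤ κ ≤ 1`, `β` in `ℝ^m` and `τ > 0`: for all `α` in `ℝ^m` outside a set of Hausdorff
dimension at most `(m + d (1 - min v (0.06 δ)) + κ) / (1 + τ)` and all `c`, for all large `q` with `‖q α_j - β_j‖ ≤ c q^(-τ)` for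
all `j`, EVERY integer `n ≥ 1` with `|n - G q| ≤ q ^ κ` reaches a value `≤ n ^ δ` within `B log n` steps and stays `≤ n ^ (1 + v)`
until then. If `n` has this property then for some `u ≤ n ^ δ` in its trajectory and all `V ≥ n ^ (1 + v)` the maximum
excursion of `n` is `≤ V` if and only if the one of `u` is. The functions `a x^d` with `a > 0`, `d ≥ 1` are examples of `G`. -/
theorem result :
    (∃ B : ℝ, 0 < B ∧
      ∀ (G : ℕ → ℝ) (d : ℝ), Expanding G d → ∀ v δ κ : ℝ, 0 < v → v ≤ 1 → 0 < δ → 0 ≤ κ → κ ≤ 1 →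
        ∀ (m : ℕ) (β : Fin m → ℝ) (τ : ℝ), 0 < τ →
          ∃ E : Set (Fin m → ℝ),
            dimH E ≤ ENNReal.ofReal ((m + (d * (1 - min v (6 / 100 * δ)) + κ)) / (1 + τ)) ∧
            ∀ α, α ∉ E → ∀ c : ℝ, ∃ Q : ℕ, ∀ q : ℕ, Q ≤ q → Solves α β q (c * (q : ℝ) ^ (-τ)) →
              ∀ n : ℕ, 1 ≤ n → |(n : ℝ) - G q| ≤ (q : ℝ) ^ κ →
                DescendsBelow B ((n : ℝ) ^ δ) ((n : ℝ) ^ (1 + v)) n) ∧
    (∀ (B v δ : ℝ) (n : ℕ), DescendsBelow B ((n : ℝ) ^ δ) ((n : ℝ) ^ (1 + v)) n →
      ∃ u k : ℕ, T^[k] n = u ∧ (u : ℝ) ≤ (n : ℝ) ^ δ ∧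
        ∀ V : ℝ, (n : ℝ) ^ (1 + v) ≤ V → (ExcursionLE n V ↔ ExcursionLE u V)) ∧
    ∀ a d : ℝ, 0 < a → 1 ≤ d → Expanding (fun x => a * (x : ℝ) ^ d) d := by
  obtain ⟨B, hB, hcount⟩ := Pool.Agent.L7h55.EX.count_two
  refine ⟨⟨B, hB, fun G d hG v δ κ hv hv1 hδ hκ hκ1 m β τ hτ => ?_⟩, fun B v δ n h => ?_,
    fun a d ha hd => expanding_pow ha hd⟩
  · obtain ⟨E, hE, hE2⟩ := approx_good_nat (fun _ => True)
      (fun n => DescendsBelow B ((n : ℝ) ^ δ) ((n : ℝ) ^ (1 + v)) n) hG
      (s := 1 - min v (6 / 100 * δ)) (κ := κ) (by linarith [min_le_left v (6 / 100 * δ)]) hκ hκ1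
      (hcount v δ hv hv1 hδ) β hτ
    exact ⟨E, hE, fun α hα c => by
      obtain ⟨Q, hQ⟩ := hE2 α hα c
      exact ⟨Q, fun q hq hs n hn hw => hQ q hq hs n hn trivial hw⟩⟩
  · exact Pool.Agent.L7h55.EX.exc_transfer h

end Pool.Agent.Results.MP_0a5adf_nt.SimultaneousApproximations
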