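import Pool.Agent.L7h55.EX.Two
import Pool.Agent.N760.IT.D

/-!
# Excursions of the `3x+1` map near the members of almost all orbits of Euler's function

Let `φ_k` be the `k`-th iterate of Euler's function, `φ_0(m) = m`. Let `f` be a positive multiplicative function of at most
polynomial growth such that `f p ≤ M p` for the large primes `p`, with different values at different large primes; for example
the identity, Euler's function or the sum of the divisors. Let `0 < v ≤ 1`, `δ > 0`, `κ ≥ 0` and let `G` have steps bounded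
below by a positive constant and growth at most `x ^ d`, for example `G x = x`, with `d (1 - min v (0.06 δ)) + κ < 1`. There is
`K(m)` tending to infinity such that for almost all `m`, for all `k ≤ K(m)`, with `x = f(φ_k(m))`, EVERY integer `n ≥ 1` with
`|n - G x| ≤ x ^ κ` reaches a value `≤ n ^ δ` within `B log n` steps and stays `≤ n ^ (1 + v)` until then; so the maximum
excursion `t(n)` is at most `n ^ (1 + v)`, or it is the one of some `u ≤ n ^ δ`. The iterates of Euler's function are not
multiplicative, their values form a thin set and are taken with very large multiplicities, and so this does not follow from the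
number of exceptional `n`.
-/

set_option autoImplicit false

namespace Pool.Agent.Results.MP_0a5adf_nt.TotientOrbits

open Finset Filter
open Pool.Agent.N733.TG (LM Expanding lm_totient lm_sigma expanding_pow)
open Pool.Agent.N760.IT (orb lm_id orbit_good_nat)
open Pool.Agent.N826.IT.Orb (AlmostAll almostAll_mono)

/-- the accelerated `3x+1` map -/
def T (n : ℕ) : ℕ := if n % 2 = 0 then n / 2 else (3 * n + 1) / 2

/-- within `B log n` steps the trajectory of `n` reaches a value `≤ y`, and it stays `≤ V` until then -/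
def DescendsBelow (B y V : ℝ) (n : ℕ) : Prop :=
  ∃ m : ℕ, (m : ℝ) ≤ B * Real.log n ∧ ((T^[m] n : ℕ) : ℝ) ≤ y ∧ ∀ j ≤ m, ((T^[j] n : ℕ) : ℝ) ≤ V

/-- the maximum excursion of `n` is at most `V` -/
def ExcursionLE (n : ℕ) (V : ℝ) : Prop := ∀ k, ((T^[k] n : ℕ) : ℝ) ≤ V

/-- **Theorem.** There is `B` such that for all `f` multiplicative and positive, of at most polynomial growth, with `f p ≤ M p` at
the large primes, and injective there, all `G` with steps `≥ a > 0` and growth at most `x ^ d`, all `0 < v ≤ 1`, `δ > 0` and `κ ≥ 0`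
with `d (1 - min v (0.06 δ)) + κ < 1`: there is `K(m)` tending to infinity such that for almost all `m`, for all `k ≤ K(m)`, with
`x = f(φ_k(m))` (`orb f k m`), EVERY integer `n ≥ 1` with `|n - G x| ≤ x ^ κ` reaches a value `≤ n ^ δ` within `B log n` steps
and stays `≤ n ^ (1 + v)` until then. If `n` has this property then for some `u ≤ n ^ δ` in its trajectory and all
`V ≥ n ^ (1 + v)` the maximum excursion of `n` is `≤ V` if and only if the one of `u` is. Euler's function and the sum of the
divisors are examples of such functions `f`, and `α x ^ d` with `α > 0`, `d ≥ 1` is an example of `G`. -/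
theorem result :
    (∃ B : ℝ, 0 < B ∧
      ∀ f : ℕ → ℕ, LM f → ∀ (G : ℕ → ℝ) (d : ℝ), Expanding G d → ∀ v δ κ : ℝ, 0 < v → v ≤ 1 → 0 < δ → 0 ≤ κ →
        d * (1 - min v (6 / 100 * δ)) + κ < 1 → ∃ K : ℕ → ℕ, Tendsto K atTop atTop ∧
          AlmostAll (fun m => ∀ k ≤ K m, ∀ n : ℕ, 1 ≤ n → |(n : ℝ) - G (orb f k m)| ≤ (orb f k m : ℝ) ^ κ →
            DescendsBelow B ((n : ℝ) ^ δ) ((n : ℝ) ^ (1 + v)) n)) ∧
    (∀ (B v δ : ℝ) (n : ℕ), DescendsBelow B ((n : ℝ) ^ δ) ((n : ℝ) ^ (1 + v)) n →
      ∃ u k : ℕ, T^[k] n = u ∧ (u : ℝ) ≤ (n : ℝ) ^ δ ∧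
        ∀ V : ℝ, (n : ℝ) ^ (1 + v) ≤ V → (ExcursionLE n V ↔ ExcursionLE u V)) ∧
    (LM (fun m => m) ∧ LM Nat.totient ∧ LM (fun m => ∑ d ∈ m.divisors, d)) ∧
    ∀ α d : ℝ, 0 < α → 1 ≤ d → Expanding (fun x => α * (x : ℝ) ^ d) d := by
  obtain ⟨B, hB, hcount⟩ := Pool.Agent.L7h55.EX.count_two
  refine ⟨⟨B, hB, fun f hf G d hG v δ κ hv hv1 hδ hκ h1 => ?_⟩, fun B v δ n h => ?_,
    ⟨lm_id, lm_totient, lm_sigma⟩, fun α d hα hd => expanding_pow hα hd⟩
  · obtain ⟨K, hK, hK2⟩ := orbit_good_nat (fun _ => True)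
      (fun n => DescendsBelow B ((n : ℝ) ^ δ) ((n : ℝ) ^ (1 + v)) n) hf hG
      (s := 1 - min v (6 / 100 * δ)) (κ := κ) (by linarith [min_le_left v (6 / 100 * δ)]) hκ h1
      (hcount v δ hv hv1 hδ)
    exact ⟨K, hK, almostAll_mono hK2 (fun m hm k hk n hn1 hw => hm k hk n hn1 trivial hw)⟩
  · exact Pool.Agent.L7h55.EX.exc_transfer h

end Pool.Agent.Results.MP_0a5adf_nt.TotientOrbits
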